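import Pool.Agent.H46.Cur.Defs

/-!
Suspensions of complexes: the suspension raises all representation dimensions by one, and a
complex which is `1`-representable and convex union representable in some dimension is
`1`-convex union representable.
-/

set_option autoImplicit false

namespace Pool.Agent.H61.Cur

open Pool.Agent.H46.Cur

/-- the first `n` coordinates -/
def rs {n : ℕ} (τ : Finset (Fin (n + 2))) : Finset (Fin n) :=
  Finset.univ.filter fun i => Fin.castAdd 2 i ∈ τ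

/-- the first new vertex -/
def va (n : ℕ) : Fin (n + 2) := Fin.natAdd n 0

/-- the second new vertex -/
def vb (n : ℕ) : Fin (n + 2) := Fin.natAdd n 1

/-- the suspension of a complex -/
def sus {n : ℕ} (Δ : Set (Finset (Fin n))) : Set (Finset (Fin (n + 2))) :=
  {τ | rs τ ∈ Δ ∧ ¬ (va n ∈ τ ∧ vb n ∈ τ)}

theorem mem_rs {n : ℕ} {τ : Finset (Fin (n + 2))} {i : Fin n} : i ∈ rs τ ↔ Fin.castAdd 2 i ∈ τ := by
  simp [rs]

theorem sus_complex {n : ℕ} {Δ : Set (Finset (Fin n))} (h : IsComplex Δ) : IsComplex (sus Δ) := by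
  refine ⟨⟨?_, by simp⟩, fun σ hσ τ hτ => ⟨?_, fun h2 => hσ.2 ⟨hτ h2.1, hτ h2.2⟩⟩⟩
  · have : rs (∅ : Finset (Fin (n + 2))) = ∅ := by
      ext i
      simp [mem_rs]
    rw [this]
    exact h.1
  · refine h.2 _ hσ.1 _ fun i hi => ?_
    rw [mem_rs] at hi ⊢
    exact hτ hi

theorem cases_fin {n : ℕ} (i : Fin (n + 2)) : (∃ j : Fin n, i = Fin.castAdd 2 j) ∨ i = va n ∨ i = vb n := by
  refine Fin.addCases (fun j => Or.inl ⟨j, rfl⟩) (fun j => ?_) i
  right
  unfold va vb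
  fin_cases j
  · exact Or.inl rfl
  · exact Or.inr rfl

theorem va_ne_vb (n : ℕ) : va n ≠ vb n := by
  unfold va vb
  intro h
  have := Fin.natAdd_injective _ _ h
  exact absurd this (by decide)

theorem cast_ne_va {n : ℕ} (j : Fin n) : Fin.castAdd 2 j ≠ va n := by
  intro h
  have h1 := congrArg Fin.val h
  simp [va] at h1
  omega

theorem cast_ne_vb {n : ℕ} (j : Fin n) : Fin.castAdd 2 j ≠ vb n := by
  intro h
  have h1 := congrArg Fin.val h
  simp [vb] at h1
  omega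

/-- the sets of the suspension -/
def SU {n : ℕ} {E : Type} (U : Fin n → Set E) (A B : Set E) (i : Fin (n + 2)) : Set E :=
  Fin.addCases (motive := fun _ => Set E) U ![A, B] i

theorem SU_cast {n : ℕ} {E : Type} (U : Fin n → Set E) (A B : Set E) (j : Fin n) :
    SU U A B (Fin.castAdd 2 j) = U j := by
  unfold SU
  rw [Fin.addCases_left]

theorem SU_va {n : ℕ} {E : Type} (U : Fin n → Set E) (A B : Set E) : SU U A B (va n) = A := by
  unfold SU va
  rw [Fin.addCases_right]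
  rfl

theorem SU_vb {n : ℕ} {E : Type} (U : Fin n → Set E) (A B : Set E) : SU U A B (vb n) = B := by
  unfold SU vb
  rw [Fin.addCases_right]
  rfl

/-- membership in the nerve of a nonempty set -/
theorem mem_nerve_ne {n d : ℕ} {U : Fin n → Set (EuclideanSpace ℝ (Fin d))} {σ : Finset (Fin n)}
    (hσ : σ.Nonempty) : σ ∈ nerve U ↔ ∃ x, ∀ i ∈ σ, x ∈ U i := by
  constructor
  · intro h
    obtain ⟨x, hx⟩ := h.1 hσ
    exact ⟨x, fun i hi => Set.mem_iInter₂.1 hx i hi⟩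
  · rintro ⟨x, hx⟩
    exact ⟨fun _ => ⟨x, Set.mem_iInter₂.2 hx⟩, fun h => absurd h hσ.ne_empty⟩

theorem empty_mem_nerve {n d : ℕ} {U : Fin n → Set (EuclideanSpace ℝ (Fin d))} :
    ∅ ∈ nerve U ↔ ∃ i x, x ∈ U i := by
  constructor
  · intro h
    have h1 := convexHull_nonempty_iff.1 (h.2 rfl)
    obtain ⟨x, hx⟩ := h1
    obtain ⟨i, hi⟩ := Set.mem_iUnion.1 hx
    exact ⟨i, x, hi⟩
  · rintro ⟨i, x, hx⟩
    exact ⟨fun h => absurd h Finset.not_nonempty_empty,
      fun _ => convexHull_nonempty_iff.2 ⟨x, Set.mem_iUnion.2 ⟨i, hx⟩⟩⟩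

/-- the projection which forgets the coordinate `0` -/
noncomputable def tl (d : ℕ) : EuclideanSpace ℝ (Fin (d + 1)) →L[ℝ] EuclideanSpace ℝ (Fin d) :=
  LinearMap.toContinuousLinearMap
    { toFun := fun x => WithLp.toLp 2 fun i => x i.succ
      map_add' := fun x y => by
        ext i
        rfl
      map_smul' := fun c x => by
        ext i
        rfl }

theorem tl_apply (d : ℕ) (x : EuclideanSpace ℝ (Fin (d + 1))) (i : Fin d) : tl d x i = x i.succ := rfl

/-- the coordinate `0` -/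
noncomputable def hd (d : ℕ) : EuclideanSpace ℝ (Fin (d + 1)) →L[ℝ] ℝ :=
  LinearMap.toContinuousLinearMap
    { toFun := fun x => x 0
      map_add' := fun _ _ => rfl
      map_smul' := fun _ _ => rfl }

theorem hd_apply (d : ℕ) (x : EuclideanSpace ℝ (Fin (d + 1))) : hd d x = x 0 := rfl

theorem exists_pt (d : ℕ) (y : EuclideanSpace ℝ (Fin d)) (t : ℝ) :
    ∃ x : EuclideanSpace ℝ (Fin (d + 1)), tl d x = y ∧ hd d x = t := by
  refine ⟨WithLp.toLp 2 (Fin.cons t fun i => y i), ?_, ?_⟩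
  · ext i
    rfl
  · rfl

section up

variable {n d : ℕ} (U : Fin n → Set (EuclideanSpace ℝ (Fin d))) (C : Set (EuclideanSpace ℝ (Fin d)))

/-- the sets in one more dimension -/
noncomputable def UP : Fin (n + 2) → Set (EuclideanSpace ℝ (Fin (d + 1))) :=
  SU (fun i => tl d ⁻¹' U i) (tl d ⁻¹' C ∩ hd d ⁻¹' Set.Ioi 1) (tl d ⁻¹' C ∩ hd d ⁻¹' Set.Iio (-1))

theorem UP_convex (hU : ∀ i, Convex ℝ (U i)) (hC : Convex ℝ C) (i : Fin (n + 2)) :
    Convex ℝ (UP U C i) := by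
  rcases cases_fin i with ⟨j, rfl⟩ | rfl | rfl
  · rw [UP, SU_cast]
    exact (hU j).linear_preimage (tl d).toLinearMap
  · rw [UP, SU_va]
    exact (hC.linear_preimage (tl d).toLinearMap).inter
      ((convex_Ioi 1).linear_preimage (hd d).toLinearMap)
  · rw [UP, SU_vb]
    exact (hC.linear_preimage (tl d).toLinearMap).inter
      ((convex_Iio (-1)).linear_preimage (hd d).toLinearMap)

theorem UP_open (hU : ∀ i, IsOpen (U i)) (hC : IsOpen C) (i : Fin (n + 2)) :
    IsOpen (UP U C i) := by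
  rcases cases_fin i with ⟨j, rfl⟩ | rfl | rfl
  · rw [UP, SU_cast]
    exact (hU j).preimage (tl d).continuous
  · rw [UP, SU_va]
    exact (hC.preimage (tl d).continuous).inter (isOpen_Ioi.preimage (hd d).continuous)
  · rw [UP, SU_vb]
    exact (hC.preimage (tl d).continuous).inter (isOpen_Iio.preimage (hd d).continuous)

theorem nerve_UP (hC : ∀ i, U i ⊆ C) (hne : ∅ ∈ nerve U) : nerve (UP U C) = sus (nerve U) := by
  obtain ⟨i₀, x₀, hx₀⟩ := empty_mem_nerve.1 hne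
  have hmain : ∀ τ : Finset (Fin (n + 2)), (∃ x, ∀ i ∈ τ, x ∈ UP U C i) ↔ τ ∈ sus (nerve U) := by
    intro τ
    constructor
    · rintro ⟨x, hx⟩
      refine ⟨?_, fun h => ?_⟩
      · by_cases h : (rs τ).Nonempty
        · rw [mem_nerve_ne h]
          refine ⟨tl d x, fun i hi => ?_⟩
          have h1 := hx _ (mem_rs.1 hi)
          rw [UP, SU_cast] at h1
          exact h1
        · rw [Finset.not_nonempty_iff_eq_empty.1 h]
          exact hne
      · have h1 := hx _ h.1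
        have h2 := hx _ h.2
        rw [UP, SU_va] at h1
        rw [UP, SU_vb] at h2
        have h3 : (1 : ℝ) < hd d x := h1.2
        have h4 : hd d x < -1 := h2.2
        linarith
    · rintro ⟨h1, h2⟩
      obtain ⟨y, hy1, hy2⟩ : ∃ y, (∀ i ∈ rs τ, y ∈ U i) ∧ y ∈ C := by
        by_cases h : (rs τ).Nonempty
        · obtain ⟨y, hy⟩ := (mem_nerve_ne h).1 h1
          obtain ⟨i, hi⟩ := h
          exact ⟨y, hy, hC i (hy i hi)⟩
        · rw [Finset.not_nonempty_iff_eq_empty.1 h]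
          exact ⟨x₀, fun i hi => absurd hi (Finset.notMem_empty i), hC i₀ hx₀⟩
      by_cases ha : va n ∈ τ
      · have hb : vb n ∉ τ := fun hb => h2 ⟨ha, hb⟩
        obtain ⟨x, e1, e2⟩ := exists_pt d y 2
        refine ⟨x, fun i hi => ?_⟩
        rcases cases_fin i with ⟨j, rfl⟩ | rfl | rfl
        · rw [UP, SU_cast]
          show tl d x ∈ U j
          rw [e1]
          exact hy1 j (mem_rs.2 hi)
        · rw [UP, SU_va]
          refine ⟨?_, ?_⟩
          · show tl d x ∈ C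
            rw [e1]
            exact hy2
          · show (1 : ℝ) < hd d x
            rw [e2]
            norm_num
        · exact absurd hi hb
      · obtain ⟨x, e1, e2⟩ := exists_pt d y (-2)
        refine ⟨x, fun i hi => ?_⟩
        rcases cases_fin i with ⟨j, rfl⟩ | rfl | rfl
        · rw [UP, SU_cast]
          show tl d x ∈ U j
          rw [e1]
          exact hy1 j (mem_rs.2 hi)
        · exact absurd hi ha
        · rw [UP, SU_vb]
          refine ⟨?_, ?_⟩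
          · show tl d x ∈ C
            rw [e1]
            exact hy2
          · show hd d x < -1
            rw [e2]
            norm_num
  ext τ
  by_cases h : τ.Nonempty
  · rw [mem_nerve_ne h, hmain]
  · rw [Finset.not_nonempty_iff_eq_empty.1 h]
    constructor
    · intro _
      exact (hmain ∅).1 ⟨0, fun i hi => absurd hi (Finset.notMem_empty i)⟩
    · intro _
      rw [empty_mem_nerve]
      obtain ⟨x, e1, _⟩ := exists_pt d x₀ 0
      refine ⟨Fin.castAdd 2 i₀, x, ?_⟩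
      rw [UP, SU_cast]
      show tl d x ∈ U i₀
      rw [e1]
      exact hx₀

end up

theorem sus_representable {n d : ℕ} {Δ : Set (Finset (Fin n))} (hΔ : IsComplex Δ)
    (h : Representable d Δ) : Representable (d + 1) (sus Δ) := by
  obtain ⟨U, h1, rfl⟩ := h
  exact ⟨UP U Set.univ, UP_convex U _ h1 convex_univ, nerve_UP U _ (fun _ => Set.subset_univ _) hΔ.1⟩

theorem sus_unionRepresentable {n d : ℕ} {Δ : Set (Finset (Fin n))} (hΔ : IsComplex Δ)
    (h : UnionRepresentable d Δ) : UnionRepresentable (d + 1) (sus Δ) := by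
  obtain ⟨U, h1, h2, h3, rfl⟩ := h
  have hu : (⋃ i, UP U (⋃ i, U i) i) = tl d ⁻¹' (⋃ i, U i) := by
    ext x
    constructor
    · intro hx
      obtain ⟨i, hi⟩ := Set.mem_iUnion.1 hx
      rcases cases_fin i with ⟨j, rfl⟩ | rfl | rfl
      · rw [UP, SU_cast] at hi
        exact Set.mem_iUnion.2 ⟨j, hi⟩
      · rw [UP, SU_va] at hi
        exact hi.1
      · rw [UP, SU_vb] at hi
        exact hi.1
    · intro hx
      obtain ⟨j, hj⟩ := Set.mem_iUnion.1 hx
      refine Set.mem_iUnion.2 ⟨Fin.castAdd 2 j, ?_⟩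
      rw [UP, SU_cast]
      exact hj
  refine ⟨UP U (⋃ i, U i), fun i => ⟨UP_convex U _ (fun i => (h1 i).1) h2 i,
    UP_open U _ (fun i => (h1 i).2) h3 i⟩, ?_, ?_, nerve_UP U _ (fun i => Set.subset_iUnion U i) hΔ.1⟩
  · rw [hu]
    exact h2.linear_preimage (tl d).toLinearMap
  · rw [hu]
    exact h3.preimage (tl d).continuous

/-- the hyperplane `f = u` as the range of an affine map -/
theorem exists_hyper (d : ℕ) (f : EuclideanSpace ℝ (Fin (d + 1)) →L[ℝ] ℝ) (hf : f ≠ 0) (u : ℝ) :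
    ∃ (x₀ : EuclideanSpace ℝ (Fin (d + 1)))
      (L : EuclideanSpace ℝ (Fin d) →ₗ[ℝ] EuclideanSpace ℝ (Fin (d + 1))),
      (∀ y, f (x₀ + L y) = u) ∧ ∀ x, f x = u → ∃ y, x₀ + L y = x := by
  obtain ⟨z, hz⟩ : ∃ z, f z ≠ 0 := by
    by_contra h
    push Not at h
    exact hf (ContinuousLinearMap.ext h)
  have hfx : f ((u / f z) • z) = u := by
    rw [map_smul, smul_eq_mul, div_mul_cancel₀ _ hz]
  have hdim : Module.finrank ℝ (LinearMap.ker f.toLinearMap) = d := by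
    have h1 := LinearMap.finrank_range_add_finrank_ker f.toLinearMap
    have h2 : LinearMap.range f.toLinearMap = ⊤ := by
      rw [LinearMap.range_eq_top]
      intro t
      refine ⟨(t / f z) • z, ?_⟩
      show f ((t / f z) • z) = t
      rw [map_smul, smul_eq_mul, div_mul_cancel₀ _ hz]
    rw [h2, finrank_top, Module.finrank_self, finrank_euclideanSpace, Fintype.card_fin] at h1
    omega
  have hdim2 : Module.finrank ℝ (EuclideanSpace ℝ (Fin d)) =
      Module.finrank ℝ (LinearMap.ker f.toLinearMap) := by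
    rw [hdim, finrank_euclideanSpace, Fintype.card_fin]
  let e := LinearEquiv.ofFinrankEq (EuclideanSpace ℝ (Fin d)) (LinearMap.ker f.toLinearMap) hdim2
  refine ⟨(u / f z) • z, (LinearMap.ker f.toLinearMap).subtype ∘ₗ e.toLinearMap, fun y => ?_, fun x hx => ?_⟩
  · rw [map_add, hfx]
    have h1 : f ((e y : LinearMap.ker f.toLinearMap) : EuclideanSpace ℝ (Fin (d + 1))) = 0 := (e y).2
    show u + f ((e y : LinearMap.ker f.toLinearMap) : EuclideanSpace ℝ (Fin (d + 1))) = u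
    rw [h1, add_zero]
  · have h1 : x - (u / f z) • z ∈ LinearMap.ker f.toLinearMap := by
      rw [LinearMap.mem_ker]
      show f (x - (u / f z) • z) = 0
      rw [map_sub, hfx, hx, sub_self]
    refine ⟨e.symm ⟨_, h1⟩, ?_⟩
    show (u / f z) • z + ((e (e.symm ⟨_, h1⟩) : LinearMap.ker f.toLinearMap) :
      EuclideanSpace ℝ (Fin (d + 1))) = x
    rw [LinearEquiv.apply_symm_apply]
    exact add_sub_cancel _ _

theorem rs_image {n : ℕ} (σ : Finset (Fin n)) (S : Finset (Fin (n + 2)))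
    (hS : ∀ j : Fin n, Fin.castAdd 2 j ∉ S) : rs (σ.image (Fin.castAdd 2) ∪ S) = σ := by
  ext i
  rw [mem_rs, Finset.mem_union, Finset.mem_image]
  constructor
  · rintro (⟨j, hj, h⟩ | h)
    · rwa [Fin.castAdd_injective _ _ h] at hj
    · exact absurd h (hS i)
  · intro h
    exact Or.inl ⟨i, h, rfl⟩

theorem of_sus {n d : ℕ} {Δ : Set (Finset (Fin n))} (hΔ : IsComplex Δ)
    (h : UnionRepresentable (d + 1) (sus Δ)) : UnionRepresentable d Δ := by
  obtain ⟨W, h1, h2, h3, h4⟩ := h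
  -- faces
  have face : ∀ τ : Finset (Fin (n + 2)), τ.Nonempty → (τ ∈ sus Δ ↔ ∃ x, ∀ i ∈ τ, x ∈ W i) := by
    intro τ hτ
    rw [← h4, mem_nerve_ne hτ]
  have fa : ∀ σ ∈ Δ, ∃ x, x ∈ W (va n) ∧ ∀ i ∈ σ, x ∈ W (Fin.castAdd 2 i) := by
    intro σ hσ
    have h5 : σ.image (Fin.castAdd 2) ∪ {va n} ∈ sus Δ := by
      refine ⟨?_, ?_⟩
      · rw [rs_image σ {va n} fun j hj => cast_ne_va j (Finset.mem_singleton.1 hj)]
        exact hσ
      · rintro ⟨-, h6⟩
        rcases Finset.mem_union.1 h6 with h7 | h7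
        · obtain ⟨j, -, hj⟩ := Finset.mem_image.1 h7
          exact cast_ne_vb j hj
        · exact va_ne_vb n (Finset.mem_singleton.1 h7).symm
    obtain ⟨x, hx⟩ := (face _ ⟨va n, by simp⟩).1 h5
    exact ⟨x, hx _ (by simp), fun i hi => hx _ (by simp [hi])⟩
  have fb : ∀ σ ∈ Δ, ∃ x, x ∈ W (vb n) ∧ ∀ i ∈ σ, x ∈ W (Fin.castAdd 2 i) := by
    intro σ hσ
    have h5 : σ.image (Fin.castAdd 2) ∪ {vb n} ∈ sus Δ := by
      refine ⟨?_, ?_⟩
      · rw [rs_image σ {vb n} fun j hj => cast_ne_vb j (Finset.mem_singleton.1 hj)]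
        exact hσ
      · rintro ⟨h6, -⟩
        rcases Finset.mem_union.1 h6 with h7 | h7
        · obtain ⟨j, -, hj⟩ := Finset.mem_image.1 h7
          exact cast_ne_va j hj
        · exact va_ne_vb n (Finset.mem_singleton.1 h7)
    obtain ⟨x, hx⟩ := (face _ ⟨vb n, by simp⟩).1 h5
    exact ⟨x, hx _ (by simp), fun i hi => hx _ (by simp [hi])⟩
  -- the two new sets are disjoint
  have hdis : Disjoint (W (va n)) (W (vb n)) := by
    rw [Set.disjoint_left]
    intro x hxa hxb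
    have h5 : ({va n, vb n} : Finset (Fin (n + 2))) ∈ sus Δ := by
      rw [face _ ⟨va n, by simp⟩]
      refine ⟨x, fun i hi => ?_⟩
      rcases Finset.mem_insert.1 hi with rfl | hi
      · exact hxa
      · rw [Finset.mem_singleton.1 hi]
        exact hxb
    exact h5.2 ⟨by simp, by simp⟩
  obtain ⟨f, u, hfa, hfb⟩ := geometric_hahn_banach_open_open (h1 (va n)).1 (h1 (va n)).2
    (h1 (vb n)).1 (h1 (vb n)).2 hdis
  obtain ⟨xa, hxa, -⟩ := fa ∅ hΔ.1
  obtain ⟨xb, hxb, -⟩ := fb ∅ hΔ.1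
  have hf : f ≠ 0 := by
    rintro rfl
    have h5 := hfa xa hxa
    have h6 := hfb xb hxb
    simp only [zero_apply] at h5 h6
    linarith
  obtain ⟨x₀, L, hL1, hL2⟩ := exists_hyper d f hf u
  let Lc : EuclideanSpace ℝ (Fin d) →L[ℝ] EuclideanSpace ℝ (Fin (d + 1)) := LinearMap.toContinuousLinearMap L
  let φ : EuclideanSpace ℝ (Fin d) → EuclideanSpace ℝ (Fin (d + 1)) := fun y => x₀ + Lc y
  have hφc : Continuous φ := continuous_const.add Lc.continuous
  have hφ1 : ∀ y, f (φ y) = u := hL1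
  have hφ2 : ∀ x, f x = u → ∃ y, φ y = x := hL2
  have hconv : ∀ S : Set (EuclideanSpace ℝ (Fin (d + 1))), Convex ℝ S → Convex ℝ (φ ⁻¹' S) := by
    intro S hS
    have h5 : φ ⁻¹' S = L ⁻¹' ((fun x => x₀ + x) ⁻¹' S) := rfl
    rw [h5]
    exact (hS.translate_preimage_right x₀).linear_preimage L
  -- a convex set which meets both sides meets the hyperplane
  have hmeet : ∀ S : Set (EuclideanSpace ℝ (Fin (d + 1))), Convex ℝ S → ∀ p ∈ S, ∀ q ∈ S,
      f p < u → u < f q → ∃ y, φ y ∈ S := by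
    intro S hS p hp q hq hpu hqu
    have h5 : 0 < f q - f p := by linarith
    have ht0 : 0 ≤ (u - f p) / (f q - f p) := div_nonneg (by linarith) h5.le
    have ht1 : (u - f p) / (f q - f p) ≤ 1 := by
      rw [div_le_one h5]
      linarith
    have h6 := hS hp hq (sub_nonneg.2 ht1) ht0 (by ring)
    obtain ⟨y, hy⟩ := hφ2 ((1 - (u - f p) / (f q - f p)) • p + ((u - f p) / (f q - f p)) • q) (by
      rw [map_add, map_smul, map_smul, smul_eq_mul, smul_eq_mul]
      field_simp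
      ring)
    exact ⟨y, by rw [hy]; exact h6⟩
  have hunion : (⋃ i : Fin n, φ ⁻¹' W (Fin.castAdd 2 i)) = φ ⁻¹' (⋃ i, W i) := by
    ext y
    constructor
    · intro hy
      obtain ⟨i, hi⟩ := Set.mem_iUnion.1 hy
      exact Set.mem_iUnion.2 ⟨_, hi⟩
    · intro hy
      obtain ⟨i, hi⟩ := Set.mem_iUnion.1 hy
      rcases cases_fin i with ⟨j, rfl⟩ | rfl | rfl
      · exact Set.mem_iUnion.2 ⟨j, hi⟩
      · exact absurd (hfa _ hi) (by rw [hφ1]; exact lt_irrefl u)
      · exact absurd (hfb _ hi) (by rw [hφ1]; exact lt_irrefl u)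
  refine ⟨fun i => φ ⁻¹' W (Fin.castAdd 2 i), fun i => ⟨hconv _ (h1 _).1, (h1 _).2.preimage hφc⟩, ?_, ?_, ?_⟩
  · rw [hunion]
    exact hconv _ h2
  · rw [hunion]
    exact h3.preimage hφc
  · ext σ
    by_cases hσ : σ.Nonempty
    · rw [mem_nerve_ne hσ]
      constructor
      · rintro ⟨y, hy⟩
        have h5 : σ.image (Fin.castAdd 2) ∪ ∅ ∈ sus Δ := by
          rw [face _ (by rw [Finset.union_empty]; exact hσ.image _)]
          refine ⟨φ y, fun i hi => ?_⟩
          rw [Finset.union_empty] at hi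
          obtain ⟨j, hj, rfl⟩ := Finset.mem_image.1 hi
          exact hy j hj
        have h6 := h5.1
        rwa [rs_image σ ∅ fun j => Finset.notMem_empty _] at h6
      · intro hσΔ
        obtain ⟨p, hp1, hp2⟩ := fa σ hσΔ
        obtain ⟨q, hq1, hq2⟩ := fb σ hσΔ
        have hS : Convex ℝ (⋂ i ∈ σ, W (Fin.castAdd 2 i)) :=
          convex_iInter₂ fun i _ => (h1 _).1
        obtain ⟨y, hy⟩ := hmeet _ hS p (Set.mem_iInter₂.2 hp2) q (Set.mem_iInter₂.2 hq2)
          (hfa p hp1) (hfb q hq1)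
        exact ⟨y, fun i hi => Set.mem_iInter₂.1 hy i hi⟩
    · rw [Finset.not_nonempty_iff_eq_empty.1 hσ]
      refine ⟨fun _ => hΔ.1, fun _ => ?_⟩
      rw [empty_mem_nerve]
      obtain ⟨y, hy⟩ := hmeet _ h2 xa (Set.mem_iUnion.2 ⟨_, hxa⟩) xb (Set.mem_iUnion.2 ⟨_, hxb⟩)
        (hfa xa hxa) (hfb xb hxb)
      have h5 : y ∈ ⋃ i : Fin n, φ ⁻¹' W (Fin.castAdd 2 i) := by
        rw [hunion]
        exact hy
      obtain ⟨i, hi⟩ := Set.mem_iUnion.1 h5
      exact ⟨i, y, hi⟩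

/-- the point of the line with coordinate `x` -/
noncomputable def pt : ℝ →ₗ[ℝ] EuclideanSpace ℝ (Fin 1) where
  toFun x := WithLp.toLp 2 fun _ => x
  map_add' _ _ := rfl
  map_smul' _ _ := rfl

theorem hd_pt (x : ℝ) : hd 0 (pt x) = x := rfl

theorem pt_hd (y : EuclideanSpace ℝ (Fin (0 + 1))) : pt (hd 0 y) = y := by
  ext i
  have hi : i = 0 := Subsingleton.elim _ _
  rw [hi]
  rfl

theorem one_neg {n : ℕ} {Δ : Set (Finset (Fin n))} (hΔ : IsComplex Δ) (h1 : Representable 1 Δ)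
    {e : ℕ} (h2 : UnionRepresentable e Δ) : UnionRepresentable 1 Δ := by
  classical
  obtain ⟨U, hU, hUΔ⟩ := h1
  obtain ⟨W, hW1, hW2, hW3, hWΔ⟩ := h2
  have hU' : ∀ i, Convex ℝ (pt ⁻¹' U i) := fun i => (hU i).linear_preimage pt
  have face : ∀ σ : Finset (Fin n), σ.Nonempty → (σ ∈ Δ ↔ ∃ x : ℝ, ∀ i ∈ σ, x ∈ pt ⁻¹' U i) := by
    intro σ hσ
    rw [← hUΔ, mem_nerve_ne hσ]
    constructor
    · rintro ⟨y, hy⟩
      refine ⟨hd 0 y, fun i hi => ?_⟩
      show pt (hd 0 y) ∈ U i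
      rw [pt_hd]
      exact hy i hi
    · rintro ⟨x, hx⟩
      exact ⟨pt x, hx⟩
  have hP : ∀ σ : Finset (Fin n), ∃ x : ℝ, σ ∈ Δ → σ.Nonempty → ∀ i ∈ σ, x ∈ pt ⁻¹' U i := by
    intro σ
    by_cases h : σ ∈ Δ ∧ σ.Nonempty
    · obtain ⟨x, hx⟩ := (face σ h.2).1 h.1
      exact ⟨x, fun _ _ => hx⟩
    · exact ⟨0, fun h3 h4 => absurd ⟨h3, h4⟩ h⟩
  choose P hP using hP
  have hab : ∀ i : Fin n, ∃ a b : ℝ, {i} ∈ Δ → a ∈ pt ⁻¹' U i ∧ b ∈ pt ⁻¹' U i ∧
      ∀ σ ∈ Δ, i ∈ σ → a ≤ P σ ∧ P σ ≤ b := by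
    intro i
    by_cases h : ({i} : Finset (Fin n)) ∈ Δ
    · have hne : (Finset.univ.filter fun σ : Finset (Fin n) => σ ∈ Δ ∧ i ∈ σ).Nonempty :=
        ⟨{i}, by simp [h]⟩
      obtain ⟨σ, hσ, hmin⟩ := Finset.exists_min_image _ P hne
      obtain ⟨τ, hτ, hmax⟩ := Finset.exists_max_image _ P hne
      rw [Finset.mem_filter] at hσ hτ
      refine ⟨P σ, P τ, fun _ => ⟨hP σ hσ.2.1 ⟨i, hσ.2.2⟩ i hσ.2.2, hP τ hτ.2.1 ⟨i, hτ.2.2⟩ i hτ.2.2,
        fun ρ hρ hi => ⟨hmin ρ ?_, hmax ρ ?_⟩⟩⟩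
      · exact Finset.mem_filter.2 ⟨Finset.mem_univ _, hρ, hi⟩
      · exact Finset.mem_filter.2 ⟨Finset.mem_univ _, hρ, hi⟩
    · exact ⟨0, 0, fun h3 => absurd h3 h⟩
  choose a b hab using hab
  obtain ⟨ε, hε, hgap⟩ : ∃ ε : ℝ, 0 < ε ∧ ∀ p : Fin n × Fin n, b p.2 < a p.1 → 2 * ε ≤ a p.1 - b p.2 := by
    have h3 : ∀ᶠ ε in nhdsWithin (0 : ℝ) (Set.Ioi 0), ∀ p : Fin n × Fin n, b p.2 < a p.1 →
        2 * ε ≤ a p.1 - b p.2 := by
      rw [Filter.eventually_all]
      intro p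
      by_cases h : b p.2 < a p.1
      · have h4 : ∀ᶠ ε in nhdsWithin (0 : ℝ) (Set.Ioi 0), ε < (a p.1 - b p.2) / 2 :=
          nhdsWithin_le_nhds (Iio_mem_nhds (by linarith))
        filter_upwards [h4] with ε h5 _
        linarith
      · exact Filter.Eventually.of_forall fun ε h5 => absurd h5 h
    obtain ⟨ε, h4, h5⟩ := (h3.and self_mem_nhdsWithin).exists
    exact ⟨ε, h5, h4⟩
  have hclique : ∀ τ : Finset (Fin n), τ.Nonempty → (∀ i ∈ τ, {i} ∈ Δ) → (∀ i ∈ τ, ∀ j ∈ τ, a i ≤ b j) →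
      τ ∈ Δ := by
    intro τ hτ hv hle
    rw [face τ hτ]
    obtain ⟨i₀, hi₀, hmax⟩ := Finset.exists_max_image τ a hτ
    refine ⟨a i₀, fun j hj => ?_⟩
    obtain ⟨h3, h4, -⟩ := hab j (hv j hj)
    exact (hU' j).ordConnected.out h3 h4 ⟨hmax j hj, hle i₀ hi₀ j hj⟩
  let I : Fin n → Set (EuclideanSpace ℝ (Fin 1)) := fun i =>
    {y | {i} ∈ Δ ∧ a i - ε < hd 0 y ∧ hd 0 y < b i + ε}
  have hI : ∀ i, {i} ∈ Δ → I i = hd 0 ⁻¹' Set.Ioo (a i - ε) (b i + ε) := by
    intro i hi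
    ext y
    exact ⟨fun h => h.2, fun h => ⟨hi, h⟩⟩
  have hI0 : ∀ i, {i} ∉ Δ → I i = ∅ := by
    intro i hi
    ext y
    exact ⟨fun h => absurd h.1 hi, fun h => absurd h (Set.notMem_empty y)⟩
  have hIc : ∀ i, Convex ℝ (I i) ∧ IsOpen (I i) := by
    intro i
    by_cases hi : ({i} : Finset (Fin n)) ∈ Δ
    · rw [hI i hi]
      exact ⟨(convex_Ioo _ _).linear_preimage (hd 0).toLinearMap, isOpen_Ioo.preimage (hd 0).continuous⟩
    · rw [hI0 i hi]
      exact ⟨convex_empty, isOpen_empty⟩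
  have hsing : ∀ i, {i} ∈ Δ → P {i} ∈ Set.Ioo (a i - ε) (b i + ε) := by
    intro i hi
    obtain ⟨h3, h4⟩ := (hab i hi).2.2 {i} hi (Finset.mem_singleton_self i)
    exact ⟨by linarith, by linarith⟩
  refine ⟨I, hIc, ?_, isOpen_iUnion fun i => (hIc i).2, ?_⟩
  · have hS : (⋃ i, I i) = hd 0 ⁻¹' {x : ℝ | ∃ i, {i} ∈ Δ ∧ a i - ε < x ∧ x < b i + ε} := by
      ext y
      constructor
      · intro hy
        obtain ⟨i, hi⟩ := Set.mem_iUnion.1 hy
        exact ⟨i, hi⟩
      · rintro ⟨i, hi⟩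
        exact Set.mem_iUnion.2 ⟨i, hi⟩
    rw [hS]
    refine Convex.linear_preimage ?_ (hd 0).toLinearMap
    refine Set.OrdConnected.convex ⟨?_⟩
    rintro u ⟨i₀, hi₀, hu1, hu2⟩ w ⟨j₀, hj₀, hw1, hw2⟩ x hx
    by_contra hxS
    have hside : ∀ i, {i} ∈ Δ → b i + ε ≤ x ∨ x ≤ a i - ε := by
      intro i hi
      by_contra hc
      push Not at hc
      exact hxS ⟨i, hi, hc.2, hc.1⟩
    have hL : b i₀ + ε ≤ x := by
      rcases hside i₀ hi₀ with h | h
      · exact h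
      · have := hx.1
        linarith
    have hR : x ≤ a j₀ - ε := by
      rcases hside j₀ hj₀ with h | h
      · have := hx.2
        linarith
      · exact h
    have hWne : ∀ i, {i} ∈ Δ → ∃ y, y ∈ W i := by
      intro i hi
      rw [← hWΔ, mem_nerve_ne (Finset.singleton_nonempty i)] at hi
      obtain ⟨y, hy⟩ := hi
      exact ⟨y, hy i (Finset.mem_singleton_self i)⟩
    have hWin : ∀ i y, y ∈ W i → {i} ∈ Δ := by
      intro i y hy
      rw [← hWΔ, mem_nerve_ne (Finset.singleton_nonempty i)]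
      refine ⟨y, fun j hj => ?_⟩
      rw [Finset.mem_singleton.1 hj]
      exact hy
    have hconn := hW2.isPreconnected (⋃ i ∈ {i | b i + ε ≤ x}, W i) (⋃ i ∈ {i | x ≤ a i - ε}, W i)
      (isOpen_biUnion fun i _ => (hW1 i).2) (isOpen_biUnion fun i _ => (hW1 i).2) (by
        intro y hy
        obtain ⟨i, hi⟩ := Set.mem_iUnion.1 hy
        rcases hside i (hWin i y hi) with h | h
        · exact Or.inl (Set.mem_iUnion₂.2 ⟨i, h, hi⟩)
        · exact Or.inr (Set.mem_iUnion₂.2 ⟨i, h, hi⟩)) (by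
        obtain ⟨y, hy⟩ := hWne i₀ hi₀
        exact ⟨y, Set.mem_iUnion.2 ⟨_, hy⟩, Set.mem_iUnion₂.2 ⟨i₀, hL, hy⟩⟩) (by
        obtain ⟨y, hy⟩ := hWne j₀ hj₀
        exact ⟨y, Set.mem_iUnion.2 ⟨_, hy⟩, Set.mem_iUnion₂.2 ⟨j₀, hR, hy⟩⟩)
    obtain ⟨y, -, hy1, hy2⟩ := hconn
    obtain ⟨i, hi, hyi⟩ := Set.mem_iUnion₂.1 hy1
    obtain ⟨j, hj, hyj⟩ := Set.mem_iUnion₂.1 hy2
    have hij : ({i, j} : Finset (Fin n)) ∈ Δ := by
      rw [← hWΔ, mem_nerve_ne ⟨i, by simp⟩]
      refine ⟨y, fun k hk => ?_⟩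
      rcases Finset.mem_insert.1 hk with rfl | hk
      · exact hyi
      · rw [Finset.mem_singleton.1 hk]
        exact hyj
    have h5 := ((hab i (hWin i y hyi)).2.2 _ hij (by simp)).2
    have h6 := ((hab j (hWin j y hyj)).2.2 _ hij (by simp)).1
    have hi' : b i + ε ≤ x := hi
    have hj' : x ≤ a j - ε := hj
    linarith
  · ext τ
    by_cases hτ : τ.Nonempty
    · rw [mem_nerve_ne hτ]
      constructor
      · rintro ⟨y, hy⟩
        refine hclique τ hτ (fun i hi => (hy i hi).1) fun i hi j hj => ?_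
        by_contra hc
        push Not at hc
        have h5 := hgap (i, j) hc
        have h6 := (hy i hi).2.1
        have h7 := (hy j hj).2.2
        simp only at h5
        linarith
      · intro hτΔ
        refine ⟨pt (P τ), fun i hi => ?_⟩
        have hi' : {i} ∈ Δ := hΔ.2 τ hτΔ _ (Finset.singleton_subset_iff.2 hi)
        obtain ⟨h5, h6⟩ := (hab i hi').2.2 τ hτΔ hi
        refine ⟨hi', ?_, ?_⟩
        · rw [hd_pt]
          linarith
        · rw [hd_pt]
          linarith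
    · rw [Finset.not_nonempty_iff_eq_empty.1 hτ]
      refine ⟨fun _ => hΔ.1, fun _ => ?_⟩
      have h5 := hΔ.1
      rw [← hUΔ, empty_mem_nerve] at h5
      obtain ⟨i, x, hx⟩ := h5
      have hi : ({i} : Finset (Fin n)) ∈ Δ := by
        rw [← hUΔ, mem_nerve_ne (Finset.singleton_nonempty i)]
        refine ⟨x, fun j hj => ?_⟩
        rw [Finset.mem_singleton.1 hj]
        exact hx
      rw [empty_mem_nerve]
      exact ⟨i, pt (P {i}), hi, hsing i hi⟩

theorem zero_neg {n : ℕ} {Δ : Set (Finset (Fin n))} (h : Representable 0 Δ) : UnionRepresentable 0 Δ := by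
  obtain ⟨U, hU, hUΔ⟩ := h
  refine ⟨U, fun i => ⟨hU i, ?_⟩, Set.subsingleton_of_subsingleton.convex, ?_, hUΔ⟩
  · exact isOpen_discrete _
  · exact isOpen_discrete _

end Pool.Agent.H61.Cur
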